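import Pool.Agent.K9h83.IP.PolyR

/-!
# The existence of an isolated point of a semialgebraic set is `∃∀ℝ`-complete

Sketch of the hardness proof.

*A max-min problem.*  Let `∃ x ∀ y, ψ(x, y)` be a sentence.  The negation of `ψ` is turned into a
system of constraints `v = 1`, `u + v = w`, `u v = w`, which is homogenised in the variables
`Y = (T, Z)`, `T ∈ [0, 1]`, `Z ∈ [-1, 1]^l`; let `q(x, Y)` be the sum of the squares of the
constraints.  With doubly exponentially small numbers `τ ≫ δ ≫ ζ > 0`, a doubly exponentially large
`K`, and parameters `c ∈ [-1, 1]^n`, let
`g_c(x, Y) = q(x, Y) - τ⁵ T^K + ζ ∑ Z_b⁶ + δ (2n + 2 - |x|²) + ζ ∑ c_a x_a`.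
If the sentence is true, then `x ↦ min_Y g_c(x, Y)` has a positive maximum in the interior of the
cube `[-1, 1]^n`; if `min_Y g_c(x, Y) > 0` for some `x`, then the sentence is true.

*Isolated points for generic parameters.*  At the maximum, `0` is a convex combination of at most
`n + 1` of the gradients of `g_c(·, Y_j)`, where the `Y_j` are minimisers.  The variables of the
semialgebraic set are `c`, `x`, the multipliers `λ_j`, the points `Y_j` (unused blocks are put
to a fixed point with `λ_j = 0`), the powers which are needed, and a point of the cone over
`{Y : g_c(x, Y) ≤ 0}`.  If `c` is algebraically independent, then a count of transcendence degrees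
(through derivations of the field of real numbers) shows that each solution of the stationarity
equations is isolated in its fibre.  The vertex of the cone is isolated in the cone if and only if
`min_Y g_c(x, Y) > 0`.  Hence the fibre over a generic `c` has an isolated point if the sentence is
true, and no fibre has an isolated point if the sentence is false.

*From generic to special parameters.*  By an effective transfer principle (maxima and minima over
cubes satisfy polynomial relations of bounded degree) the fibre over `c` has an isolated point for
all `c ∈ [-1, 1]^n` outside the zero set of a nonzero polynomial of doubly exponential degree. The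
roots of an iterate of `c ↦ 2 c² - 1` form a finite set which is large enough to contain the
coordinates of such a point, and it is defined by a short system of equations.  The union of the
fibres over this finite net is the required semialgebraic set.
-/

namespace Pool.Agent.Results.MP_47d501_lc.IsolatedPointComplete

open Pool.Agent.NPC Pool.Agent.NPC.ER Pool.Agent.K9h83.IP

/-- ISOLATED-POINT-EXISTENCE is `∃∀ℝ`-complete under polynomial-time many-one reductions. -/
theorem result : EARComplete (lang IsolatedPoint) := Pool.Agent.NPC.K9IP.isolated_complete

end Pool.Agent.Results.MP_47d501_lc.IsolatedPointComplete
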